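import Mathlib
import Pool.Agent.Lib.MP_f006b0_nt_h92.Mn

/-! A positive proportion of the even numbers `d` occur as `|a(n)|`, where
`a(n) = p_{2n+2} - p_{2n+1} - p_{2n} + p_{2n-1}`. -/

set_option autoImplicit false

namespace Pool.Agent.Results.MP_f006b0_nt.PositiveProportion

/-- The `k`-th prime for `k ≥ 1`, indexed so that `pr 1 = 2`, `pr 2 = 3`. -/
noncomputable def pr (k : ℕ) : ℕ := Nat.nth Nat.Prime (k - 1)

/-- The second difference of paired consecutive primes. -/
noncomputable def a (n : ℕ) : ℤ :=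
  (pr (2 * n + 2) : ℤ) - pr (2 * n + 1) - pr (2 * n) + pr (2 * n - 1)

/-- There is `c > 0` such that for every large integer `X` at least `c X` of the even numbers
`d` in `[1, X]` satisfy `|a n| = d` for at least `exp (c X)` integers `n` with
`1 ≤ n ≤ exp X`. -/
theorem result : ∃ c : ℝ, 0 < c ∧ ∃ X₀ : ℝ, ∀ X : ℕ, X₀ ≤ X →
    c * X ≤ (((Finset.Icc 1 X).filter (fun d : ℕ => Even d ∧
      Real.exp (c * X) ≤ (((Finset.Icc 1 ⌊Real.exp X⌋₊).filter
        (fun n : ℕ => |a n| = (d : ℤ))).card : ℝ))).card : ℝ) :=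
  Pool.Agent.FQ.positive_proportion

end Pool.Agent.Results.MP_f006b0_nt.PositiveProportion
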